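import Mathlib
import Pool.Agent.Lib.MP_4e4ac8_an.G5

set_option autoImplicit false

namespace Pool.Agent.Lib.MP_4e4ac8_an.Old.AlgebraicFoliation

open Pool.Agent.Lib.MP_4e4ac8_an

/-- The Levi foliation of a nonempty closed smooth Levi-flat hypersurface of the projective plane
(given by its cone `S` and local defining functions `r p` near each point `p`) is the restriction
of an algebraic foliation `A 0 dx 0 + A 1 dx 1 + A 2 dx 2 = 0` of the plane with no singular point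
on the hypersurface. -/
theorem result (S : Set (Fin 3 → ℂ)) (hne : S.Nonempty) (h0 : (0 : Fin 3 → ℂ) ∉ S)
    (hcl : IsClosed (insert 0 S)) (hcone : ∀ z ∈ S, ∀ c : ℂ, c ≠ 0 → c • z ∈ S)
    (U : (Fin 3 → ℂ) → Set (Fin 3 → ℂ)) (r : (Fin 3 → ℂ) → (Fin 3 → ℂ) → ℝ)
    (hloc : ∀ p ∈ S, IsOpen (U p) ∧ p ∈ U p ∧
      ContDiffOn ℝ ((⊤ : ℕ∞) : WithTop ℕ∞) (r p) (U p) ∧
      (∀ q ∈ U p, q ∈ S ↔ r p q = 0) ∧
      ∀ q ∈ U p ∩ S, fderiv ℝ (r p) q ≠ 0 ∧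
        ∀ ξ : Fin 3 → ℂ, fderiv ℝ (r p) q ξ = 0 → fderiv ℝ (r p) q (Complex.I • ξ) = 0 →
          iteratedFDeriv ℝ 2 (r p) q ![ξ, ξ]
            + iteratedFDeriv ℝ 2 (r p) q ![Complex.I • ξ, Complex.I • ξ] = 0) :
    ∃ (d : ℕ) (A : Fin 3 → MvPolynomial (Fin 3) ℂ), (∀ i, (A i).IsHomogeneous d) ∧
      ∑ i, MvPolynomial.X i * A i = 0 ∧
      ∀ p ∈ S, (∃ i, MvPolynomial.eval p (A i) ≠ 0) ∧ ∀ ξ : Fin 3 → ℂ,
        ∑ i, MvPolynomial.eval p (A i) * ξ i = 0 ↔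
          fderiv ℝ (r p) p ξ = 0 ∧ fderiv ℝ (r p) p (Complex.I • ξ) = 0 := by
  have hl : ∀ p ∈ S, LocDef S (U p) (r p) := fun p hp => by
    obtain ⟨a, -, c, d, e⟩ := hloc p hp
    refine ⟨a, contDiffOn_infty.1 c 3, d, fun q h1 h2 => (e q ⟨h1, h2⟩).1,
      fun q h1 h2 ξ h3 h4 => ?_⟩
    simpa [iteratedFDeriv_two_apply] using (e q ⟨h1, h2⟩).2 ξ h3 h4
  have hL : LF S := ⟨hne, h0, hcl, hcone, fun p hp => ⟨U p, r p, (hloc p hp).2.1, hl p hp⟩⟩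
  have hS : LFs S := ⟨hL, fun p hp => ⟨U p, r p, (hloc p hp).2.1, hl p hp, (hloc p hp).2.2.1⟩⟩
  obtain ⟨d, A, h1, h2, h3⟩ := hS.alg
  have key : ∀ p ∈ S, (∃ i, MvPolynomial.eval p (A i) ≠ 0) ∧ ∀ ξ : Fin 3 → ℂ,
      ∑ i, MvPolynomial.eval p (A i) * ξ i = 0 ↔ cn S p ξ = 0 := fun p hp => by
    obtain ⟨j, hj⟩ := hL.ch hp
    refine ⟨⟨j, h3 p hp j hj⟩, fun ξ => ?_⟩
    have e : ∑ i, MvPolynomial.eval p (A i) * ξ i =
        MvPolynomial.eval p (A j) * dot (gv S j p) ξ := by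
      rw [Fin.sum_univ_three, h2 p hp j hj 0, h2 p hp j hj 1, h2 p hp j hj 2]
      simp only [dot, gv]
      ring
    rw [e, cn_dot hj, mul_eq_zero, mul_eq_zero, or_iff_right (h3 p hp j hj), or_iff_right hj]
  refine ⟨d, A, h1, hL.poly_zero fun x hx => ?_, fun p hp => ⟨(key p hp).1, fun ξ => ?_⟩⟩
  · simpa [mul_comm] using ((key x hx).2 x).2 ((hL.con hx).self hL hx)
  · obtain ⟨c, c0, hc⟩ := hL.con hp _ _ (hl p hp) (hloc p hp).2.1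
    rw [(key p hp).2, hc, mul_eq_zero, or_iff_right (by exact_mod_cast c0), cf_eq_zero]

end Pool.Agent.Lib.MP_4e4ac8_an.Old.AlgebraicFoliation
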