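import Mathlib
import Pool.Agent.Lib.MP_4e4ac8_an.H3

set_option autoImplicit false

namespace Pool.Agent.Lib.MP_4e4ac8_an.Old.RealAnalytic

open Pool.Agent.Lib.MP_4e4ac8_an

/-- A nonempty closed smooth Levi-flat hypersurface of the projective plane (given by its cone `S`)
is real analytic: near each of its points the cone is the zero set of the imaginary part of a
holomorphic function, a real analytic function with nonzero differential. -/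
theorem result (S : Set (Fin 3 → ℂ)) (hne : S.Nonempty) (h0 : (0 : Fin 3 → ℂ) ∉ S)
    (hcl : IsClosed (insert 0 S)) (hcone : ∀ z ∈ S, ∀ c : ℂ, c ≠ 0 → c • z ∈ S)
    (hloc : ∀ p ∈ S, ∃ U : Set (Fin 3 → ℂ), IsOpen U ∧ p ∈ U ∧ ∃ r : (Fin 3 → ℂ) → ℝ,
      ContDiffOn ℝ ((⊤ : ℕ∞) : WithTop ℕ∞) r U ∧
      (∀ q ∈ U, q ∈ S ↔ r q = 0) ∧
      ∀ q ∈ U ∩ S, fderiv ℝ r q ≠ 0 ∧
        ∀ ξ : Fin 3 → ℂ, fderiv ℝ r q ξ = 0 → fderiv ℝ r q (Complex.I • ξ) = 0 →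
          iteratedFDeriv ℝ 2 r q ![ξ, ξ]
            + iteratedFDeriv ℝ 2 r q ![Complex.I • ξ, Complex.I • ξ] = 0) :
    ∀ p ∈ S, ∃ V : Set (Fin 3 → ℂ), IsOpen V ∧ p ∈ V ∧ ∃ F : (Fin 3 → ℂ) → ℂ,
      AnalyticOnNhd ℂ F V ∧ AnalyticOnNhd ℝ (fun z => (F z).im) V ∧
      ∀ q ∈ V, (q ∈ S ↔ (F q).im = 0) ∧ fderiv ℝ (fun z => (F z).im) q ≠ 0 := by
  have hl : ∀ p ∈ S, ∃ U r, p ∈ U ∧ LocDef S U r ∧
      ContDiffOn ℝ ((⊤ : ℕ∞) : WithTop ℕ∞) r U := fun p hp => by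
    obtain ⟨U, a, b, r, c, d, e⟩ := hloc p hp
    refine ⟨U, r, b, ⟨a, contDiffOn_infty.1 c 3, d, fun q h1 h2 => (e q ⟨h1, h2⟩).1,
      fun q h1 h2 ξ h3 h4 => ?_⟩, c⟩
    simpa [iteratedFDeriv_two_apply] using (e q ⟨h1, h2⟩).2 ξ h3 h4
  have hL : LF S := ⟨hne, h0, hcl, hcone, fun p hp =>
    (hl p hp).imp fun _ h => h.imp fun _ h => ⟨h.1, h.2.1⟩⟩
  obtain ⟨A, hA⟩ := LFs.exists_alg ⟨hL, hl⟩
  intro p hp
  obtain ⟨V, v1, v2, F, f1, f2⟩ := hL.analytic hA hp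
  refine ⟨V, v1, v2, F, f1, fun z hz => (Complex.imCLM.analyticAt _).comp
    (f1 z hz).restrictScalars, fun q hq => ⟨(f2 q hq).2, fun h => (f2 q hq).1 ?_⟩⟩
  have d := (Complex.imCLM.hasFDerivAt.comp q
    ((f1 q hq).differentiableAt.hasFDerivAt.restrictScalars ℝ)).fderiv
  rw [show fderiv ℝ (fun z => (F z).im) q = _ from d] at h
  refine ContinuousLinearMap.ext fun w => ?_
  have e := fun w => congrArg (fun L : (Fin 3 → ℂ) →L[ℝ] ℝ => L w) h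
  exact Complex.ext (by simpa using e (Complex.I • w)) (by simpa using e w)

end Pool.Agent.Lib.MP_4e4ac8_an.Old.RealAnalytic
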